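import Pool.Agent.helper43.BMH.Spec

/-!
# Project bmh, row SYM: the symmetrised law
-/

set_option autoImplicit false

namespace Pool.Agent.helper43.BMH

open scoped ENNReal

theorem SYM_card {ι G : Type} [Fintype ι] [AddCommGroup G] [DecidableEq G] (f : ι → G) (g : G) :
    (Finset.univ.filter fun w : ι × ℤˣ => ((w.2 : ℤˣ) : ℤ) • f w.1 = g).card =
      (Finset.univ.filter fun i => f i = g).card + (Finset.univ.filter fun i => f i = -g).card := by
  rw [Finset.card_filter, Finset.card_filter, Finset.card_filter, Fintype.sum_prod_type,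
    ← Finset.sum_add_distrib]
  apply Finset.sum_congr rfl
  intro i _
  rw [UnitsInt.univ]
  rw [Finset.sum_insert (by decide), Finset.sum_singleton]
  have h1 : (((1 : ℤˣ) : ℤ) • f i = g) = (f i = g) := by simp
  have h2 : (((-1 : ℤˣ) : ℤ) • f i = g) = (f i = -g) := by
    simp only [Units.val_neg, Units.val_one, neg_smul, one_smul]
    exact propext neg_eq_iff_eq_neg
  simp only [h1, h2]

theorem SYM_pr {ι G : Type} [Fintype ι] [AddCommGroup G] [DecidableEq G] (f : ι → G) (g : G) :
    fr f g = pr (fun w : ι × ℤˣ => ((w.2 : ℤˣ) : ℤ) • f w.1) g := by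
  unfold fr pr
  rw [SYM_card]
  have h : Fintype.card (ι × ℤˣ) = 2 * Fintype.card ι := by
    rw [Fintype.card_prod, Fintype.card_units_int, mul_comm]
  rw [h]
  push_cast
  rfl

theorem SYM_neg {ι G : Type} [Fintype ι] [AddCommGroup G] [DecidableEq G] (f : ι → G) (g : G) :
    fr f (-g) = fr f g := by
  unfold fr
  rw [neg_neg, add_comm]

theorem t_sym : SYM := by
  intro ι G _ _ _ _ f
  refine ⟨?_, SYM_pr f⟩
  unfold ent Ent
  have h : Fintype.card (ι × ℤˣ) = 2 * Fintype.card ι := by
    rw [Fintype.card_prod, Fintype.card_units_int, mul_comm]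
  have h1 : ∑ w : ι × ℤˣ, Real.log (pr (fun w : ι × ℤˣ => ((w.2 : ℤˣ) : ℤ) • f w.1)
      ((fun w : ι × ℤˣ => ((w.2 : ℤˣ) : ℤ) • f w.1) w)) = 2 * ∑ i, Real.log (fr f (f i)) := by
    rw [Fintype.sum_prod_type, Finset.mul_sum]
    apply Finset.sum_congr rfl
    intro i _
    rw [UnitsInt.univ]
    rw [Finset.sum_insert (by decide), Finset.sum_singleton]
    rw [← SYM_pr, ← SYM_pr]
    simp only [Units.val_neg, Units.val_one, neg_smul, one_smul]
    rw [SYM_neg]
    ring
  rw [h1, h]
  have hpos : (0 : ℝ) < Fintype.card ι := by exact_mod_cast Fintype.card_pos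
  push_cast
  field_simp

end Pool.Agent.helper43.BMH
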